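import Pool.Agent.Y808.LB.StmM

/-!
# Coordinates of a local ring over a local base, positive relative dimension
-/

set_option autoImplicit false

open Polynomial IsLocalRing

noncomputable section

namespace Pool.Agent.Y968.LB

open Pool.Agent.Y808.LB

/-- transport of coordinates along bijections of the index types -/
theorem transp {R B : Type} [CommRing R] [CommRing B] [IsLocalRing B] (φ : R →+* B)
    {σ τ : Type} {n d : ℕ} (es : σ ≃ Fin n) (et : Fin d ≃ τ) (c : σ → B)
    (g : τ → MvPolynomial σ R)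
    (gen : Ideal.span (Set.range fun i => MvPolynomial.eval₂Hom φ c (g i)) = maximalIdeal B)
    (ker : ∀ P, MvPolynomial.eval₂Hom φ c P ∈ maximalIdeal B →
      ∃ Q, MvPolynomial.eval₂Hom φ c Q ∉ maximalIdeal B ∧ Q * P ∈ Ideal.span (Set.range g))
    (res : ∀ z : B, ∃ P Q, MvPolynomial.eval₂Hom φ c Q ∉ maximalIdeal B ∧
      MvPolynomial.eval₂Hom φ c Q * z - MvPolynomial.eval₂Hom φ c P ∈ maximalIdeal B) :
    Coord φ (c ∘ es.symm) (fun i => MvPolynomial.rename es (g (et i))) := by
  have key : ∀ P : MvPolynomial σ R,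
      MvPolynomial.eval₂Hom φ (c ∘ es.symm) (MvPolynomial.rename es P)
        = MvPolynomial.eval₂Hom φ c P := by
    intro P
    rw [MvPolynomial.eval₂Hom_rename]
    congr 2
    ext x
    simp
  have key2 : ∀ P : MvPolynomial (Fin n) R,
      MvPolynomial.rename es (MvPolynomial.rename es.symm P) = P := by
    intro P
    rw [MvPolynomial.rename_rename]
    have : (es ∘ es.symm : Fin n → Fin n) = id := by
      ext x
      simp
    rw [this, MvPolynomial.rename_id_apply]
  refine ⟨?_, ?_, ?_⟩
  · rw [← gen]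
    congr 1
    ext x
    constructor
    · rintro ⟨i, rfl⟩
      exact ⟨et i, (key _).symm⟩
    · rintro ⟨i, rfl⟩
      refine ⟨et.symm i, ?_⟩
      simp only [key, Equiv.apply_symm_apply]
  · intro P hP
    obtain ⟨Q, hQ, hQP⟩ := ker (MvPolynomial.rename es.symm P)
      (by rw [← key, key2]; exact hP)
    refine ⟨MvPolynomial.rename es Q, by rw [key]; exact hQ, ?_⟩
    have h1 := Ideal.mem_map_of_mem
      (MvPolynomial.rename (R := R) es : MvPolynomial σ R →ₐ[R] MvPolynomial (Fin n) R).toRingHom hQP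
    rw [Ideal.map_span] at h1
    have h2 : (MvPolynomial.rename (R := R) es : MvPolynomial σ R →ₐ[R]
        MvPolynomial (Fin n) R).toRingHom (Q * MvPolynomial.rename es.symm P)
        = MvPolynomial.rename es Q * P := by
      rw [map_mul]
      congr 1
      exact key2 P
    rw [h2] at h1
    refine Ideal.span_mono ?_ h1
    rintro x ⟨y, ⟨i, rfl⟩, rfl⟩
    refine ⟨et.symm i, ?_⟩
    simp
  · intro z
    obtain ⟨P, Q, h1, h2⟩ := res z
    exact ⟨MvPolynomial.rename es P, MvPolynomial.rename es Q, by rw [key]; exact h1,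
      by rw [key, key]; exact h2⟩

/-- the index type of the variables -/
abbrev Ix (e s : ℕ) : Type := Fin e ⊕ (Fin s ⊕ Unit)

/-- the inclusion of `R[T][Z]` into `R[T,W,Z]` -/
def jj (R : Type) [CommRing R] (e s : ℕ) :
    (MvPolynomial (Fin e) R)[X] →+* MvPolynomial (Ix e s) R :=
  Polynomial.eval₂RingHom (MvPolynomial.rename (R := R) (Sum.inl : Fin e → Ix e s)).toRingHom
    (MvPolynomial.X (Sum.inr (Sum.inr ())))

/-- the retraction `R[T,W,Z] → R[T][Z]`, `W ↦ 0` -/
def pp (R : Type) [CommRing R] (e s : ℕ) :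
    MvPolynomial (Ix e s) R →+* (MvPolynomial (Fin e) R)[X] :=
  MvPolynomial.eval₂Hom ((Polynomial.C).comp MvPolynomial.C)
    (Sum.elim (fun i => Polynomial.C (MvPolynomial.X i)) (Sum.elim (fun _ => 0) (fun _ => X)))

theorem jj_C {R : Type} [CommRing R] {e s : ℕ} (P : MvPolynomial (Fin e) R) :
    jj R e s (C P) = MvPolynomial.rename Sum.inl P := by
  simp [jj]

theorem jj_X {R : Type} [CommRing R] {e s : ℕ} :
    jj R e s X = MvPolynomial.X (Sum.inr (Sum.inr ())) := by
  simp [jj]

/-- `P - j(π(P))` lies in each ideal containing the `W_i` -/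
theorem sub_mem {R : Type} [CommRing R] {e s : ℕ} (I : Ideal (MvPolynomial (Ix e s) R))
    (hI : ∀ i : Fin s, MvPolynomial.X (Sum.inr (Sum.inl i)) ∈ I)
    (P : MvPolynomial (Ix e s) R) : P - jj R e s (pp R e s P) ∈ I := by
  have h : (Ideal.Quotient.mk I) = ((Ideal.Quotient.mk I).comp (jj R e s)).comp (pp R e s) := by
    apply MvPolynomial.ringHom_ext
    · intro r
      simp [pp, jj_C]
    · intro i
      rcases i with i | i | i
      · simp [pp, jj_C]
      · simp only [pp, RingHom.coe_comp, Function.comp_apply, MvPolynomial.coe_eval₂Hom,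
          MvPolynomial.eval₂_X, Sum.elim_inr, Sum.elim_inl, map_zero]
        exact Ideal.Quotient.eq_zero_iff_mem.2 (hI i)
      · simp [pp, jj_X]
  have h2 := congrArg (fun f => f P) h
  simp only [RingHom.coe_comp, Function.comp_apply] at h2
  exact Ideal.Quotient.eq.1 h2

/-- evaluation of `j(P)` -/
theorem eval_jj {R B : Type} [CommRing R] [CommRing B] (φ : R →+* B) {e s : ℕ} (T : Fin e → B)
    (w : Fin s → B) (z : B) (P : (MvPolynomial (Fin e) R)[X]) :
    MvPolynomial.eval₂Hom φ (Sum.elim T (Sum.elim w (fun _ => z))) (jj R e s P)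
      = P.eval₂ (MvPolynomial.eval₂Hom φ T) z := by
  simp only [jj, Polynomial.coe_eval₂RingHom]
  rw [Polynomial.hom_eval₂]
  congr 1
  · apply MvPolynomial.ringHom_ext
    · intro r
      simp
    · intro i
      simp
  · simp

/-- coefficients in the maximal ideal -/
theorem jj_mem {R κ : Type} [CommRing R] [CommRing κ] (ρ : R →+* κ) {e s : ℕ}
    (I : Ideal (MvPolynomial (Ix e s) R)) (S : Set R) (hS : RingHom.ker ρ = Ideal.span S)
    (hI : ∀ r ∈ S, MvPolynomial.C r ∈ I) (P : (MvPolynomial (Fin e) R)[X])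
    (hP : P.map (MvPolynomial.map ρ) = 0) : jj R e s P ∈ I := by
  have h1 : P ∈ RingHom.ker (Polynomial.mapRingHom (MvPolynomial.map (σ := Fin e) ρ)) := by
    rw [RingHom.mem_ker]
    simpa using hP
  rw [Polynomial.ker_mapRingHom, MvPolynomial.ker_map, hS] at h1
  have h2 : ((Ideal.span S).map (MvPolynomial.C : R →+* MvPolynomial (Fin e) R)).map
      (Polynomial.C : MvPolynomial (Fin e) R →+* (MvPolynomial (Fin e) R)[X])
        ≤ I.comap (jj R e s) := by
    rw [Ideal.map_le_iff_le_comap, Ideal.map_le_iff_le_comap, Ideal.span_le]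
    intro r hr
    simp only [SetLike.mem_coe, Ideal.mem_comap, jj_C]
    simpa using hI r hr
  exact h2 h1

/-- residues of values -/
theorem res_eval {R B : Type} [CommRing R] [IsLocalRing R] [CommRing B] [IsLocalRing B]
    [Algebra R B] [IsLocalHom (algebraMap R B)] {e : ℕ} (T : Fin e → B)
    (z : B) (P : (MvPolynomial (Fin e) R)[X]) :
    residue B (P.eval₂ (MvPolynomial.eval₂Hom (algebraMap R B) T) z)
      = (P.map (MvPolynomial.map (residue R))).eval₂
        (MvPolynomial.aeval (fun i => residue B (T i)) :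
          MvPolynomial (Fin e) (ResidueField R) →ₐ[ResidueField R] ResidueField B).toRingHom
        (residue B z) := by
  rw [Polynomial.hom_eval₂, Polynomial.eval₂_map]
  congr 1
  apply MvPolynomial.ringHom_ext
  · intro r
    simp
  · intro i
    simp

/-- lifting the coordinate `z` so that `G(T,z)` is congruent to a given element of `m_B` -/
theorem newton {B : Type} [CommRing B] [IsLocalRing B] (G : B[X]) (z0 w : B)
    (h0 : G.eval z0 ∈ maximalIdeal B) (hu : IsUnit ((derivative G).eval z0))
    (hw : w ∈ maximalIdeal B) :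
    ∃ z1 : B, z1 - z0 ∈ maximalIdeal B ∧ G.eval z1 - w ∈ maximalIdeal B * maximalIdeal B := by
  obtain ⟨u, hu⟩ := hu
  set l : B := ↑u⁻¹ * (w - G.eval z0) with hl
  have hlm : l ∈ maximalIdeal B := Ideal.mul_mem_left _ _ (Ideal.sub_mem _ hw h0)
  refine ⟨z0 + l, by simpa using hlm, ?_⟩
  obtain ⟨k, hk⟩ := Polynomial.binomExpansion G z0 l
  rw [hk, ← hu]
  have h1 : (u : B) * l = w - G.eval z0 := by
    rw [hl, ← mul_assoc, Units.mul_inv, one_mul]
  rw [h1]
  have h2 : G.eval z0 + (w - G.eval z0) + k * l ^ 2 - w = k * (l * l) := by ring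
  rw [h2]
  exact Ideal.mul_mem_left _ _ (Ideal.mul_mem_mul hlm hlm)

/-- Nakayama -/
theorem nak {B : Type} [CommRing B] [IsLocalRing B] (S : Set B) (hS : S.Finite) (J : Ideal B)
    (hm : maximalIdeal B = Ideal.span S) (hJ : J ≤ maximalIdeal B)
    (h : ∀ x ∈ S, ∃ y ∈ J, y - x ∈ maximalIdeal B * maximalIdeal B) : J = maximalIdeal B := by
  apply le_antisymm hJ
  apply Submodule.le_of_le_smul_of_le_jacobson_bot (I := maximalIdeal B)
  · rw [hm]
    exact Submodule.fg_span hS
  · rw [IsLocalRing.jacobson_eq_maximalIdeal _ bot_ne_top]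
  · rw [smul_eq_mul]
    conv_lhs => rw [hm]
    rw [Ideal.span_le]
    intro x hx
    obtain ⟨y, hy, hyx⟩ := h x hx
    have : x = y - (y - x) := by ring
    rw [this]
    exact Submodule.sub_mem _ (Submodule.mem_sup_left hy) (Submodule.mem_sup_right hyx)

/-- the generators -/
def gg {R : Type} [CommRing R] {k e s : ℕ} (a : Fin k → R) (G : (MvPolynomial (Fin e) R)[X]) :
    Fin k ⊕ (Fin s ⊕ Unit) → MvPolynomial (Ix e s) R :=
  Sum.elim (fun i => MvPolynomial.C (a i))
    (Sum.elim (fun i => MvPolynomial.X (Sum.inr (Sum.inl i))) (fun _ => jj R e s G))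

/-- COA -/
theorem t_COA : S_COA := by
  intro R B _ _ _ _ _ _ k s a w hR hB e t θ g hg
  -- lifts
  choose T hT using fun i => residue_surjective (R := B) (t i)
  obtain ⟨z0, hz0⟩ := residue_surjective (R := B) θ
  have hsR : Function.Surjective (MvPolynomial.map (σ := Fin e) (residue R)) :=
    MvPolynomial.map_surjective _ residue_surjective
  have hsR2 : Function.Surjective (Polynomial.map (MvPolynomial.map (σ := Fin e) (residue R))) :=
    Polynomial.map_surjective _ hsR
  obtain ⟨G, hG⟩ := hsR2 g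
  have ht : (fun i => residue B (T i)) = t := funext hT
  -- residues of values
  have rv : ∀ (z : B) (P : (MvPolynomial (Fin e) R)[X]), residue B z = θ →
      residue B (P.eval₂ (MvPolynomial.eval₂Hom (algebraMap R B) T) z)
      = (P.map (MvPolynomial.map (residue R))).eval₂
        (MvPolynomial.aeval t :
          MvPolynomial (Fin e) (ResidueField R) →ₐ[ResidueField R] ResidueField B).toRingHom
        θ := by
    intro z P hz
    rw [res_eval, ht, hz]
  have rc : ∀ (P : MvPolynomial (Fin e) R),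
      residue B (MvPolynomial.eval₂Hom (algebraMap R B) T P)
      = MvPolynomial.aeval t (MvPolynomial.map (residue R) P) := by
    intro P
    have := rv z0 (C P) hz0
    simpa using this
  have hal : ∀ i, algebraMap R B (a i) ∈ maximalIdeal B := by
    intro i
    rw [hB]
    exact Ideal.subset_span (Or.inl ⟨i, rfl⟩)
  have hwl : ∀ i, w i ∈ maximalIdeal B := by
    intro i
    rw [hB]
    exact Ideal.subset_span (Or.inr ⟨i, rfl⟩)
  -- Newton
  obtain ⟨z1, hz1, hγ⟩ := newton (G.map (MvPolynomial.eval₂Hom (algebraMap R B) T)) z0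
    (w (Fin.last s))
    (by
      rw [Polynomial.eval_map, ← residue_eq_zero_iff, rv z0 G hz0, hG]
      exact hg.root)
    (by
      rw [Polynomial.derivative_map, Polynomial.eval_map, ← residue_ne_zero_iff_isUnit,
        rv z0 _ hz0, ← Polynomial.derivative_map, hG]
      exact hg.der)
    (hwl _)
  rw [Polynomial.eval_map] at hγ
  have hz1' : residue B z1 = θ := by
    rw [← hz0, ← sub_eq_zero, ← map_sub, residue_eq_zero_iff]
    exact hz1
  set c : Ix e s → B := Sum.elim T (Sum.elim (fun i => w i.castSucc) (fun _ => z1)) with hc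
  have ev : ∀ P : (MvPolynomial (Fin e) R)[X],
      MvPolynomial.eval₂Hom (algebraMap R B) c (jj R e s P)
        = P.eval₂ (MvPolynomial.eval₂Hom (algebraMap R B) T) z1 := by
    intro P
    exact eval_jj _ _ _ _ _
  set γ : B := G.eval₂ (MvPolynomial.eval₂Hom (algebraMap R B) T) z1 with hγd
  have hγm : γ ∈ maximalIdeal B := by
    have h1 : γ - w (Fin.last s) ∈ maximalIdeal B := Ideal.mul_le_left hγ
    have h2 := Ideal.add_mem _ h1 (hwl (Fin.last s))
    simpa using h2
  -- values of the generators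
  have vals : ∀ i, MvPolynomial.eval₂Hom (algebraMap R B) c (gg (s := s) a G i)
      = Sum.elim (fun i => algebraMap R B (a i)) (Sum.elim (fun i => w i.castSucc) (fun _ => γ)) i := by
    intro i
    rcases i with i | i | i
    · simp [gg]
    · simp [gg, hc]
    · simp only [gg, Sum.elim_inr]
      rw [ev]
  have gen : Ideal.span (Set.range fun i =>
      MvPolynomial.eval₂Hom (algebraMap R B) c (gg (s := s) a G i)) = maximalIdeal B := by
    refine nak _ ((Set.finite_range _).union (Set.finite_range _)) _ hB ?_ ?_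
    · rw [Ideal.span_le]
      rintro x ⟨i, rfl⟩
      simp only [SetLike.mem_coe]
      rw [vals]
      rcases i with i | i | i
      · exact hal i
      · exact hwl _
      · exact hγm
    · rintro x (⟨i, rfl⟩ | ⟨i, rfl⟩)
      · refine ⟨algebraMap R B (a i), Ideal.subset_span ⟨Sum.inl i, ?_⟩, ?_⟩
        · simp only [vals, Sum.elim_inl]
        · simp
      · induction i using Fin.lastCases with
        | last =>
          refine ⟨γ, Ideal.subset_span ⟨Sum.inr (Sum.inr ()), ?_⟩, hγ⟩
          simp only [vals, Sum.elim_inr]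
        | cast i =>
          refine ⟨w i.castSucc, Ideal.subset_span ⟨Sum.inr (Sum.inl i), ?_⟩, ?_⟩
          · simp only [vals, Sum.elim_inr, Sum.elim_inl]
          · simp
  have hI : ∀ P ∈ Ideal.span (Set.range (gg (s := s) a G)),
      MvPolynomial.eval₂Hom (algebraMap R B) c P ∈ maximalIdeal B := by
    intro P hP
    have h1 := Ideal.mem_map_of_mem (MvPolynomial.eval₂Hom (algebraMap R B) c) hP
    rw [Ideal.map_span, ← Set.range_comp] at h1
    rw [← gen]
    exact h1
  have hX : ∀ i : Fin s, MvPolynomial.X (Sum.inr (Sum.inl i)) ∈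
      Ideal.span (Set.range (gg (s := s) a G)) := by
    intro i
    exact Ideal.subset_span ⟨Sum.inr (Sum.inl i), rfl⟩
  have hQne : ∀ Q : MvPolynomial (Fin e) R, MvPolynomial.map (residue R) Q ≠ 0 →
      MvPolynomial.eval₂Hom (algebraMap R B) c (jj R e s (C Q)) ∉ maximalIdeal B := by
    intro Q hQ h
    rw [ev, Polynomial.eval₂_C, ← residue_eq_zero_iff, rc] at h
    exact hQ (hg.indep _ h)
  refine ⟨_, _, _, transp (algebraMap R B) (Fintype.equivFin (Ix e s))
    (Fintype.equivFinOfCardEq (α := Fin k ⊕ (Fin s ⊕ Unit)) (n := k + (s + 1)) (by simp)).symm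
    c (gg (s := s) a G) gen ?_ ?_⟩
  · intro P hP
    have h1 := sub_mem (Ideal.span (Set.range (gg (s := s) a G))) hX P
    have h2 : MvPolynomial.eval₂Hom (algebraMap R B) c (jj R e s (pp R e s P)) ∈ maximalIdeal B := by
      have h3 := Ideal.sub_mem _ hP (hI _ h1)
      rw [map_sub, sub_sub_cancel] at h3
      exact h3
    rw [ev, ← residue_eq_zero_iff, rv z1 _ hz1'] at h2
    obtain ⟨Qb, Hb, hQb, hQH⟩ := hg.min _ h2
    obtain ⟨Q, rfl⟩ := hsR Qb
    obtain ⟨H, rfl⟩ := hsR2 Hb
    refine ⟨jj R e s (C Q), hQne Q hQb, ?_⟩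
    have h4 : jj R e s (C Q * pp R e s P - G * H) ∈ Ideal.span (Set.range (gg (s := s) a G)) := by
      apply jj_mem (residue R) _ (Set.range a) (by rw [ker_residue, hR])
      · rintro r ⟨i, rfl⟩
        exact Ideal.subset_span ⟨Sum.inl i, rfl⟩
      · rw [Polynomial.map_sub, Polynomial.map_mul, Polynomial.map_mul, Polynomial.map_C, hQH, hG,
          sub_self]
    have h5 : jj R e s G ∈ Ideal.span (Set.range (gg (s := s) a G)) :=
      Ideal.subset_span ⟨Sum.inr (Sum.inr ()), rfl⟩
    have h6 : jj R e s (C Q) * P = jj R e s (C Q) * (P - jj R e s (pp R e s P))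
        + (jj R e s (C Q * pp R e s P - G * H) + jj R e s H * jj R e s G) := by
      simp only [map_sub, map_mul]
      ring
    rw [h6]
    exact Ideal.add_mem _ (Ideal.mul_mem_left _ _ h1)
      (Ideal.add_mem _ h4 (Ideal.mul_mem_left _ _ h5))
  · intro z
    obtain ⟨Qb, Pb, hQb, hQP⟩ := hg.gen (residue B z)
    obtain ⟨Q, rfl⟩ := hsR Qb
    obtain ⟨P, rfl⟩ := hsR2 Pb
    refine ⟨jj R e s P, jj R e s (C Q), hQne Q hQb, ?_⟩
    rw [← residue_eq_zero_iff, map_sub, map_mul, ev, ev, rv z1 P hz1', Polynomial.eval₂_C, rc,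
      hQP, sub_self]

end Pool.Agent.Y968.LB
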